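import Pool.Agent.Helper89.Slab.Defs

/-!
SLAB-S3: for a function of the shape class, a moment inequality bounds the mode.
-/

set_option autoImplicit false

namespace Slab

open MeasureTheory Set

private theorem r_abs {r : ℝ → ℝ} (h : Sh r) (s : ℝ) : r s = r |s| := by
  rcases abs_choice s with h' | h'
  · rw [h']
  · rw [h', h.even]

private theorem compSupp {r : ℝ → ℝ} (h : Sh r) : HasCompactSupport r := by
  obtain ⟨L, hL⟩ := h.supp
  apply HasCompactSupport.intro (K := Icc (-|L|) |L|) isCompact_Icc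
  intro s hs
  apply hL
  by_contra hcon
  push Not at hcon
  apply hs
  rw [mem_Icc, ← abs_le]
  exact hcon.le.trans (le_abs_self L)

private theorem compSupp_mul {r : ℝ → ℝ} (h : Sh r) (w : ℝ → ℝ) :
    HasCompactSupport (fun s => w s * r s) := (compSupp h).mul_left

private theorem integrable_mul {r : ℝ → ℝ} (h : Sh r) {w : ℝ → ℝ} (hw : Continuous w) :
    Integrable (fun s => w s * r s) :=
  (hw.mul h.cont).integrable_of_hasCompactSupport (compSupp_mul h w)

theorem Sh.deriv_nonpos {r D : ℝ → ℝ} (h : Sh r) (hD : ∀ s, HasDerivAt r (D s) s) {β t : ℝ}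
    (hM2 : 0 < ∫ s, s ^ 2 * r s) (hM4 : ∫ s, s ^ 4 * r s ≤ β * ∫ s, s ^ 2 * r s)
    (ht : 0 ≤ t) (htβ : 5 * β / 3 ≤ t ^ 2) : D t ≤ 0 := by
  obtain ⟨s₁, z, hs10, hs1z, hneg, hpos, hmono, hanti⟩ := h.shape
  by_contra hDt
  push Not at hDt
  have hi2 : Integrable (fun s => s ^ 2 * r s) := integrable_mul h (by fun_prop)
  have hi4 : Integrable (fun s => s ^ 4 * r s) := integrable_mul h (by fun_prop)
  -- (1) `s₁ ^ 2 ≤ β`
  have hβ1 : s₁ ^ 2 ≤ β := by
    have h1 : 0 ≤ ∫ s, (s ^ 4 * r s - s₁ ^ 2 * (s ^ 2 * r s)) := by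
      apply integral_nonneg
      intro s
      show 0 ≤ s ^ 4 * r s - s₁ ^ 2 * (s ^ 2 * r s)
      have e : s ^ 4 * r s - s₁ ^ 2 * (s ^ 2 * r s) = s ^ 2 * ((s ^ 2 - s₁ ^ 2) * r s) := by ring
      rw [e]
      apply mul_nonneg (sq_nonneg s)
      rw [r_abs h s, ← sq_abs s]
      have ha := abs_nonneg s
      rcases le_total |s| s₁ with h2 | h2
      · have h3 := hneg |s| ha h2
        have h4 : |s| ^ 2 - s₁ ^ 2 ≤ 0 := by nlinarith
        exact mul_nonneg_of_nonpos_of_nonpos h4 h3
      · have h3 := hpos |s| h2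
        have h4 : 0 ≤ |s| ^ 2 - s₁ ^ 2 := by nlinarith
        exact mul_nonneg h4 h3
    rw [integral_sub hi4 (hi2.const_mul _), integral_const_mul] at h1
    by_contra hcon
    push Not at hcon
    nlinarith
  have hβ0 : 0 ≤ β := (sq_nonneg s₁).trans hβ1
  set b := Real.sqrt β with hb
  have hb0 : 0 ≤ b := Real.sqrt_nonneg β
  have hb2 : b ^ 2 = β := Real.sq_sqrt hβ0
  have hs1b : s₁ ≤ b := by
    rw [hb]
    exact Real.le_sqrt_of_sq_le hβ1
  have hbt : b ≤ t := by
    apply abs_le_of_sq_le_sq' _ ht |>.2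
    nlinarith
  -- (2) `t < z`
  have htz : t < z := by
    by_contra hcon
    push Not at hcon
    have hd := (hD t).hasDerivWithinAt (s := Ioi t)
    have hle : D t ≤ 0 := by
      rw [hasDerivWithinAt_iff_tendsto_slope' (by simp)] at hd
      refine le_of_tendsto hd ?_
      filter_upwards [self_mem_nhdsWithin] with s hs
      rw [slope_def_field]
      have h1 : r s ≤ r t := hanti (mem_Ici.2 hcon) (mem_Ici.2 (hcon.trans (le_of_lt hs)))
        (le_of_lt hs)
      apply div_nonpos_of_nonpos_of_nonneg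
      · linarith
      · have : t < s := hs
        linarith
    linarith
  have hz0 : 0 < z := ht.trans_lt htz
  have hbz : b ≤ z := hbt.trans htz.le
  set c := r b with hc
  have hc0 : 0 ≤ c := hpos b hs1b
  -- the weight
  have hiw : Integrable (fun s => (s ^ 4 - β * s ^ 2) * r s) := integrable_mul h (by fun_prop)
  have hwle : ∫ s, (s ^ 4 - β * s ^ 2) * r s ≤ 0 := by
    have e : (fun s => (s ^ 4 - β * s ^ 2) * r s) =
        fun s => s ^ 4 * r s - β * (s ^ 2 * r s) := by
      funext s; ring
    rw [e, integral_sub hi4 (hi2.const_mul _), integral_const_mul]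
    linarith
  have hwneg : ∀ s : ℝ, |s| ≤ b → s ^ 4 - β * s ^ 2 ≤ 0 := by
    intro s hs
    have e : s ^ 4 - β * s ^ 2 = s ^ 2 * (|s| ^ 2 - b ^ 2) := by
      rw [sq_abs, hb2]; ring
    rw [e]
    have ha := abs_nonneg s
    exact mul_nonpos_of_nonneg_of_nonpos (sq_nonneg s) (by nlinarith)
  have hwpos : ∀ s : ℝ, b ≤ |s| → 0 ≤ s ^ 4 - β * s ^ 2 := by
    intro s hs
    have e : s ^ 4 - β * s ^ 2 = s ^ 2 * (|s| ^ 2 - b ^ 2) := by
      rw [sq_abs, hb2]; ring
    rw [e]
    exact mul_nonneg (sq_nonneg s) (by nlinarith)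
  rcases hc0.lt_or_eq with hcpos | hczero
  · -- `c > 0`
    have hgi : Integrable ((Icc (-z) z).indicator (fun s => c * (s ^ 4 - β * s ^ 2))) := by
      rw [integrable_indicator_iff measurableSet_Icc]
      exact (Continuous.continuousOn (by fun_prop)).integrableOn_compact isCompact_Icc
    have hge : ∀ s, (Icc (-z) z).indicator (fun s => c * (s ^ 4 - β * s ^ 2)) s ≤
        (s ^ 4 - β * s ^ 2) * r s := by
      intro s
      by_cases hs : s ∈ Icc (-z) z
      · rw [indicator_of_mem hs]
        have hsz : |s| ≤ z := abs_le.2 hs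
        rw [r_abs h s]
        have ha := abs_nonneg s
        rcases le_total |s| b with h1 | h1
        · have hw := hwneg s h1
          have hrc : r |s| ≤ c := by
            rcases le_total |s| s₁ with h2 | h2
            · exact (hneg |s| ha h2).trans hc0
            · exact hmono ⟨h2, hsz⟩ ⟨hs1b, hbz⟩ h1
          nlinarith
        · have hw := hwpos s h1
          have hrc : c ≤ r |s| := hmono ⟨hs1b, hbz⟩ ⟨hs1b.trans h1, hsz⟩ h1
          nlinarith
      · rw [indicator_of_notMem hs]
        have hsz : z < |s| := by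
          by_contra hcon
          push Not at hcon
          exact hs (abs_le.1 hcon)
        rw [r_abs h s]
        exact mul_nonneg (hwpos s (hbz.trans hsz.le)) (hpos |s| (hs1z.trans hsz.le))
    have hint := integral_mono hgi hiw hge
    rw [integral_indicator measurableSet_Icc, integral_Icc_eq_integral_Ioc,
      ← intervalIntegral.integral_of_le (by linarith)] at hint
    have hval : ∫ s in (-z)..z, c * (s ^ 4 - β * s ^ 2) =
        c * (2 * z ^ 3 * (z ^ 2 / 5 - β / 3)) := by
      rw [intervalIntegral.integral_const_mul, intervalIntegral.integral_sub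
        (Continuous.intervalIntegrable (by fun_prop) _ _)
        (Continuous.intervalIntegrable (by fun_prop) _ _),
        intervalIntegral.integral_const_mul, integral_pow, integral_pow]
      push_cast
      ring
    rw [hval] at hint
    have h5 : 0 < z ^ 2 / 5 - β / 3 := by nlinarith
    have h6 : 0 < c * (2 * z ^ 3 * (z ^ 2 / 5 - β / 3)) := by positivity
    linarith
  · -- `c = 0`
    -- a point with `r > 0` right of `t`
    obtain ⟨t', ht', hrt'⟩ : ∃ t', t < t' ∧ r t < r t' := by
      have hd := (hD t).hasDerivWithinAt (s := Ioi t)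
      rw [hasDerivWithinAt_iff_tendsto_slope' (by simp)] at hd
      have h1 := hd.eventually (lt_mem_nhds hDt)
      obtain ⟨s, hs1, hs2⟩ := (h1.and self_mem_nhdsWithin).exists
      refine ⟨s, hs2, ?_⟩
      rw [slope_def_field] at hs1
      have h3 : 0 < s - t := by
        have : t < s := hs2
        linarith
      have := (div_pos_iff_of_pos_right h3).1 hs1
      linarith
    have hrt : 0 ≤ r t := hpos t (hs1b.trans hbt)
    have hcont : Continuous (fun s => (s ^ 4 - β * s ^ 2) * r s) := by
      have := h.cont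
      fun_prop
    have hnn : 0 ≤ (fun s => (s ^ 4 - β * s ^ 2) * r s) := by
      intro s
      show 0 ≤ (s ^ 4 - β * s ^ 2) * r s
      rw [r_abs h s]
      have ha := abs_nonneg s
      rcases le_total |s| b with h1 | h1
      · rcases le_total |s| s₁ with h2 | h2
        · exact mul_nonneg_of_nonpos_of_nonpos (hwneg s h1) (hneg |s| ha h2)
        · have h3 : r |s| ≤ c := hmono ⟨h2, h1.trans hbz⟩ ⟨hs1b, hbz⟩ h1
          have h4 := hpos |s| h2
          have h5 : r |s| = 0 := by linarith
          rw [h5, mul_zero]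
      · exact mul_nonneg (hwpos s h1) (hpos |s| (hs1b.trans h1))
    have hne : (fun s => (s ^ 4 - β * s ^ 2) * r s) t' ≠ 0 := by
      show (t' ^ 4 - β * t' ^ 2) * r t' ≠ 0
      have h1 : 0 < r t' := hrt.trans_lt hrt'
      have h2 : t' ^ 4 - β * t' ^ 2 = t' ^ 2 * (t' ^ 2 - b ^ 2) := by rw [hb2]; ring
      have h3 : 0 < t' := ht.trans_lt ht'
      have h4 : 0 < t' ^ 2 - b ^ 2 := by nlinarith
      rw [h2]
      positivity
    have := hcont.integral_pos_of_hasCompactSupport_nonneg_nonzero (μ := volume)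
      (compSupp_mul h _) hnn hne
    linarith

end Slab
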